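import Pool.Agent.Helper89.TQ.Ctx

set_option autoImplicit false
set_option linter.all false
set_option maxRecDepth 100000

namespace Pool.Agent.Helper25.TQ

open Pool.Agent.Helper89.TQ

theorem c0_11_33_33_k2 {n1 n2 n3 A1 A2 A3 B1 B2 B3 m11_1 m11_2 m11_3 m13_1 m13_2 m13_3 m22_1 m22_2 m22_3 m23_1 m23_2 m23_3 m33_1 m33_2 m33_3 : ℤ}
    (C : Ctx0 n1 n2 n3 A1 A2 A3 B1 B2 B3 m11_1 m11_2 m11_3 m13_1 m13_2 m13_3 m22_1 m22_2 m22_3 m23_1 m23_2 m23_3 m33_1 m33_2 m33_3)
    (e0 : 0 < B1)
    (e1 : 0 < A3)
    (s1 : 2 * A1 + 1 * B1 ≤ m11_1 + m33_1 + m33_1)
    (s2 : 2 * A2 + 1 * B2 ≤ m11_2 + m33_2 + m33_2)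
    (s3 : 2 * A3 + 1 * B3 ≤ m11_3 + m33_3 + m33_3) : False := by
  rcases (by have f := C.f13_2; omega : m13_1 = A1 - 1 ∨ m13_1 = B3 - 1) with h | h
  · rcases (by have f := C.p11_33B; omega : B1 ≤ 0 ∨ A3 ≤ 0 ∨ m11_1 + m33_1 < 2 * B1 ∨ m11_2 + m33_2 < 2 * B2 ∨ m11_3 + m33_3 < 2 * B3) with h | h | h | h | h
    · omega
    · omega
    · have g0 := C.o0
      have g1 := C.f11_0
      omega
    · have g0 := C.b3
      have g1 := C.o1
      have g2 := C.f11_0
      have g3 := C.f11_1
      omega
    · rcases (by have f := C.f13_5; omega : m13_2 = m13_1 + n2 ∨ m13_2 = B3 - 1) with h | h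
      · rcases (by have f := C.f23_7; omega : m23_2 = m23_1 + n2 ∨ m23_2 = A2 - 1 ∨ m23_2 = B3 - 1) with h | h | h
        · rcases (by have f := C.f13_8; omega : m13_3 = m13_2 + n3 ∨ m13_3 = B3 - 1) with h | h
          · have g0 := C.o0
            have g1 := C.f11_0
            have g2 := C.f11_1
            have g3 := C.f11_2
            have g4 := C.f13_7
            have g5 := C.f33_7
            omega
          · rcases (by have f := C.f23_3; omega : m23_1 = n1 ∨ m23_1 = A2 - 1 ∨ m23_1 = B3 - 1) with h | h | h
            · have g0 := C.a3
              have g1 := C.f11_0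
              have g2 := C.f23_5
              have g3 := C.f33_0
              omega
            · rcases (by have f := C.t12; omega : (0 < A1 ∧ A2 < A1 + n2) ∨ (0 < B1 ∧ B2 < B1 + n2)) with h | h
              · have g0 := C.a2
                have g1 := C.f23_5
                omega
              · have g0 := C.b2
                have g1 := C.f23_5
                omega
            · have g0 := C.a3
              have g1 := C.f11_0
              have g2 := C.f23_5
              have g3 := C.f33_1
              have g4 := C.f33_7
              omega
        · rcases (by have f := C.t12; omega : (0 < A1 ∧ A2 < A1 + n2) ∨ (0 < B1 ∧ B2 < B1 + n2)) with h | h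
          · rcases (by have f := C.f13_8; omega : m13_3 = m13_2 + n3 ∨ m13_3 = B3 - 1) with h | h
            · have g0 := C.o0
              have g1 := C.f11_0
              have g2 := C.f11_1
              have g3 := C.f11_2
              have g4 := C.f13_7
              have g5 := C.f33_7
              omega
            · rcases (by have f := C.p13_33A; omega : A1 ≤ 0 ∨ B3 ≤ 0 ∨ A3 ≤ 0 ∨ m13_1 + m33_1 < 2 * A1 ∨ m13_2 + m33_2 < 2 * A2 ∨ m13_3 + m33_3 < 2 * A3) with h | h | h | h | h | h
              · omega
              · have g0 := C.a2
                have g1 := C.a4
                have g2 := C.o0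
                have g3 := C.f33_7
                omega
              · omega
              · have g0 := C.f11_0
                omega
              · rcases (by have f := C.tmpp; omega : n1 < A1 + 1 ∨ A2 < A1 + 2 ∨ B1 < 1 ∨ B1 + n2 < B2 + 2) with h | h | h | h
                · have g0 := C.f11_0
                  have g1 := C.f33_0
                  omega
                · have g0 := C.b2
                  have g1 := C.f11_0
                  have g2 := C.f11_1
                  omega
                · omega
                · have g0 := C.f11_0
                  have g1 := C.f11_1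
                  omega
              · omega
          · rcases (by have f := C.tzpm; omega : A2 < A1 + 1 ∨ A2 + n3 < A3 + 2 ∨ B1 + n2 < B2 + 1 ∨ B3 < B2 + 2 ∨ (B2 + (1) ≤ A2 ∧ B3 + (-1) ≤ A3)) with h | h | h | h | h
            · rcases (by have f := C.t23; omega : (A1 < A2 ∧ A3 < A2 + n3) ∨ (B1 < B2 ∧ B3 < B2 + n3)) with h | h
              · omega
              · rcases (by have f := C.p13_33A; omega : A1 ≤ 0 ∨ B3 ≤ 0 ∨ A3 ≤ 0 ∨ m13_1 + m33_1 < 2 * A1 ∨ m13_2 + m33_2 < 2 * A2 ∨ m13_3 + m33_3 < 2 * A3) with h | h | h | h | h | h
                · have g0 := C.o0
                  omega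
                · have g0 := C.o0
                  have g1 := C.f11_0
                  have g2 := C.f33_1
                  have g3 := C.f33_7
                  omega
                · omega
                · have g0 := C.f11_0
                  omega
                · have g0 := C.a3
                  have g1 := C.f11_0
                  have g2 := C.f11_1
                  omega
                · rcases (by have f := C.f13_8; omega : m13_3 = m13_2 + n3 ∨ m13_3 = B3 - 1) with h | h
                  · have g0 := C.o0
                    have g1 := C.f11_0
                    have g2 := C.f11_1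
                    have g3 := C.f11_2
                    have g4 := C.f13_7
                    have g5 := C.f33_7
                    omega
                  · omega
            · have g0 := C.b5
              have g1 := C.o1
              have g2 := C.f33_7
              omega
            · omega
            · have g0 := C.a4
              have g1 := C.o1
              have g2 := C.f33_7
              omega
            · have g0 := C.f33_7
              omega
        · have g0 := C.a4
          have g1 := C.f23_5
          have g2 := C.f33_7
          omega
      · rcases (by have f := C.p13_33A; omega : A1 ≤ 0 ∨ B3 ≤ 0 ∨ A3 ≤ 0 ∨ m13_1 + m33_1 < 2 * A1 ∨ m13_2 + m33_2 < 2 * A2 ∨ m13_3 + m33_3 < 2 * A3) with h | h | h | h | h | h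
        · have g0 := C.o0
          omega
        · have g0 := C.o0
          have g1 := C.f11_0
          have g2 := C.f33_1
          have g3 := C.f33_7
          omega
        · omega
        · have g0 := C.f11_0
          omega
        · have g0 := C.a4
          have g1 := C.b5
          have g2 := C.f11_2
          omega
        · rcases (by have f := C.f13_8; omega : m13_3 = m13_2 + n3 ∨ m13_3 = B3 - 1) with h | h
          · have g0 := C.a4
            have g1 := C.b5
            have g2 := C.o1
            have g3 := C.f13_7
            have g4 := C.f33_7
            omega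
          · omega
  · have g0 := C.o2
    have g1 := C.f11_0
    have g2 := C.f13_0
    have g3 := C.f33_1
    omega

end Pool.Agent.Helper25.TQ
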