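import Pool.Agent.Helper89.TQ.Ctx

set_option autoImplicit false
set_option linter.all false
set_option maxRecDepth 100000

namespace Pool.Agent.Helper25.TQ

open Pool.Agent.Helper89.TQ

theorem c2_11_11_33_k0 {n1 n2 n3 A1 A2 A3 B1 B2 B3 m11_1 m11_2 m11_3 m12_1 m12_2 m12_3 m13_1 m13_2 m13_3 m22_1 m22_2 m22_3 m33_1 m33_2 m33_3 : ℤ}
    (C : Ctx2 n1 n2 n3 A1 A2 A3 B1 B2 B3 m11_1 m11_2 m11_3 m12_1 m12_2 m12_3 m13_1 m13_2 m13_3 m22_1 m22_2 m22_3 m33_1 m33_2 m33_3)
    (e0 : 0 < B1)
    (e1 : 0 < A3)
    (s1 : 0 * A1 + 3 * B1 ≤ m11_1 + m11_1 + m33_1)
    (s2 : 0 * A2 + 3 * B2 ≤ m11_2 + m11_2 + m33_2)
    (s3 : 0 * A3 + 3 * B3 ≤ m11_3 + m11_3 + m33_3) : False := by
  rcases (by have f := C.f12_2; omega : m12_1 = A1 - 1 ∨ m12_1 = B2 - 1) with h | h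
  · rcases (by have f := C.f12_5; omega : m12_2 = m12_1 + n2 ∨ m12_2 = B2 - 1) with h | h
    · have g0 := C.b3
      have g1 := C.o0
      have g2 := C.f12_4
      omega
    · rcases (by have f := C.f13_2; omega : m13_1 = A1 - 1 ∨ m13_1 = B3 - 1) with h | h
      · rcases (by have f := C.t23; omega : (A1 < A2 ∧ A3 < A2 + n3) ∨ (B1 < B2 ∧ B3 < B2 + n3)) with h | h
        · rcases (by have f := C.f13_8; omega : m13_3 = m13_2 + n3 ∨ m13_3 = B3 - 1) with h | h
          · rcases (by have f := C.f13_5; omega : m13_2 = m13_1 + n2 ∨ m13_2 = B3 - 1) with h | h
            · have g0 := C.b3
              have g1 := C.b5
              have g2 := C.o0
              have g3 := C.f13_7
              omega
            · have g0 := C.a4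
              have g1 := C.f13_7
              omega
          · rcases (by have f := C.f13_5; omega : m13_2 = m13_1 + n2 ∨ m13_2 = B3 - 1) with h | h
            · rcases (by have f := C.p12_33A; omega : A1 ≤ 0 ∨ B2 ≤ 0 ∨ A3 ≤ 0 ∨ m12_1 + m33_1 < 2 * A1 ∨ m12_2 + m33_2 < 2 * A2 ∨ m12_3 + m33_3 < 2 * A3) with h | h | h | h | h | h
              · have g0 := C.o0
                omega
              · have g0 := C.o0
                have g1 := C.o1
                omega
              · omega
              · rcases (by have f := C.p11_12B; omega : B1 ≤ 0 ∨ A1 ≤ 0 ∨ B2 ≤ 0 ∨ m11_1 + m12_1 < 2 * B1 ∨ m11_2 + m12_2 < 2 * B2 ∨ m11_3 + m12_3 < 2 * B3) with h | h | h | h | h | h
                · omega
                · have g0 := C.f11_0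
                  omega
                · have g0 := C.o1
                  have g1 := C.f11_0
                  omega
                · have g0 := C.f11_0
                  omega
                · rcases (by have f := C.p11_13B; omega : B1 ≤ 0 ∨ A1 ≤ 0 ∨ B3 ≤ 0 ∨ m11_1 + m13_1 < 2 * B1 ∨ m11_2 + m13_2 < 2 * B2 ∨ m11_3 + m13_3 < 2 * B3) with h | h | h | h | h | h
                  · omega
                  · have g0 := C.f11_0
                    omega
                  · have g0 := C.o1
                    have g1 := C.o2
                    have g2 := C.f11_0
                    have g3 := C.f11_1
                    have g4 := C.f13_4
                    have g5 := C.f33_4
                    omega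
                  · have g0 := C.f11_0
                    omega
                  · have g0 := C.b3
                    have g1 := C.f11_0
                    have g2 := C.f11_1
                    omega
                  · have g0 := C.o2
                    have g1 := C.f33_7
                    omega
                · have g0 := C.b5
                  have g1 := C.o2
                  have g2 := C.f12_6
                  have g3 := C.f33_7
                  omega
              · rcases (by have f := C.f33_5; omega : m33_2 = m33_1 + n2 ∨ m33_2 = A3 - 1) with h | h
                · have g0 := C.o1
                  have g1 := C.f11_0
                  have g2 := C.f11_1
                  omega
                · rcases (by have f := C.p11_12B; omega : B1 ≤ 0 ∨ A1 ≤ 0 ∨ B2 ≤ 0 ∨ m11_1 + m12_1 < 2 * B1 ∨ m11_2 + m12_2 < 2 * B2 ∨ m11_3 + m12_3 < 2 * B3) with h | h | h | h | h | h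
                  · omega
                  · have g0 := C.o0
                    omega
                  · have g0 := C.o1
                    have g1 := C.f11_0
                    have g2 := C.f33_1
                    omega
                  · rcases (by have f := C.p12_13B; omega : A1 ≤ 0 ∨ B2 ≤ 0 ∨ B3 ≤ 0 ∨ m12_1 + m13_1 < 2 * B1 ∨ m12_2 + m13_2 < 2 * B2 ∨ m12_3 + m13_3 < 2 * B3) with h | h | h | h | h | h
                    · have g0 := C.o0
                      omega
                    · have g0 := C.o1
                      have g1 := C.f11_0
                      have g2 := C.f33_1
                      omega
                    · have g0 := C.a3
                      have g1 := C.o1
                      have g2 := C.f11_0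
                      have g3 := C.f13_4
                      have g4 := C.f33_1
                      omega
                    · have g0 := C.o0
                      omega
                    · have g0 := C.o0
                      have g1 := C.o1
                      have g2 := C.f11_0
                      have g3 := C.f11_1
                      omega
                    · rcases (by have f := C.p13_33A; omega : A1 ≤ 0 ∨ B3 ≤ 0 ∨ A3 ≤ 0 ∨ m13_1 + m33_1 < 2 * A1 ∨ m13_2 + m33_2 < 2 * A2 ∨ m13_3 + m33_3 < 2 * A3) with h | h | h | h | h | h
                      · have g0 := C.o0
                        omega
                      · have g0 := C.o0
                        have g1 := C.o1
                        have g2 := C.f11_0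
                        have g3 := C.f11_1
                        have g4 := C.f11_2
                        have g5 := C.f12_6
                        have g6 := C.f13_4
                        have g7 := C.f33_1
                        have g8 := C.f33_7
                        omega
                      · omega
                      · have g0 := C.f11_0
                        omega
                      · have g0 := C.o0
                        have g1 := C.o1
                        have g2 := C.f11_0
                        have g3 := C.f11_1
                        have g4 := C.f11_2
                        have g5 := C.f12_6
                        have g6 := C.f13_4
                        have g7 := C.f33_7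
                        omega
                      · have g0 := C.o0
                        have g1 := C.o1
                        have g2 := C.f11_0
                        have g3 := C.f11_1
                        have g4 := C.f11_2
                        have g5 := C.f12_6
                        have g6 := C.f13_4
                        omega
                  · have g0 := C.o1
                    omega
                  · have g0 := C.o0
                    have g1 := C.o1
                    have g2 := C.f11_0
                    have g3 := C.f11_1
                    have g4 := C.f11_2
                    have g5 := C.f12_6
                    have g6 := C.f13_4
                    have g7 := C.f33_7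
                    omega
              · rcases (by have f := C.f33_8; omega : m33_3 = m33_2 + n3 ∨ m33_3 = A3 - 1) with h | h
                · rcases (by have f := C.f33_5; omega : m33_2 = m33_1 + n2 ∨ m33_2 = A3 - 1) with h | h
                  · have g0 := C.o1
                    have g1 := C.f11_0
                    have g2 := C.f11_1
                    have g3 := C.f12_6
                    omega
                  · have g0 := C.o0
                    have g1 := C.o1
                    have g2 := C.f11_0
                    have g3 := C.f11_1
                    have g4 := C.f11_2
                    have g5 := C.f12_6
                    have g6 := C.f13_4
                    omega
                · have g0 := C.o1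
                  have g1 := C.f12_6
                  omega
            · rcases (by have f := C.f33_5; omega : m33_2 = m33_1 + n2 ∨ m33_2 = A3 - 1) with h | h
              · rcases (by have f := C.f33_2; omega : m33_1 = n1 ∨ m33_1 = A3 - 1) with h | h
                · have g0 := C.a1
                  have g1 := C.o2
                  have g2 := C.f13_0
                  have g3 := C.f13_3
                  have g4 := C.f33_4
                  omega
                · have g0 := C.b3
                  have g1 := C.o1
                  have g2 := C.o2
                  have g3 := C.f11_0
                  have g4 := C.f13_0
                  have g5 := C.f13_3
                  have g6 := C.f33_4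
                  omega
              · rcases (by have f := C.f33_8; omega : m33_3 = m33_2 + n3 ∨ m33_3 = A3 - 1) with h | h
                · have g0 := C.a4
                  have g1 := C.f33_7
                  omega
                · rcases (by have f := C.tmpp; omega : n1 < A1 + 1 ∨ A2 < A1 + 2 ∨ B1 < 1 ∨ B1 + n2 < B2 + 2) with h | h | h | h
                  · rcases (by have f := C.p11_13B; omega : B1 ≤ 0 ∨ A1 ≤ 0 ∨ B3 ≤ 0 ∨ m11_1 + m13_1 < 2 * B1 ∨ m11_2 + m13_2 < 2 * B2 ∨ m11_3 + m13_3 < 2 * B3) with h | h | h | h | h | h
                    · omega
                    · have g0 := C.b1
                      omega
                    · have g0 := C.a4
                      have g1 := C.o2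
                      have g2 := C.f11_0
                      have g3 := C.f33_0
                      omega
                    · have g0 := C.f11_0
                      have g1 := C.f33_0
                      omega
                    · have g0 := C.b4
                      have g1 := C.o2
                      have g2 := C.f33_4
                      omega
                    · have g0 := C.b3
                      have g1 := C.o1
                      have g2 := C.f11_0
                      have g3 := C.f11_1
                      have g4 := C.f11_2
                      have g5 := C.f33_7
                      omega
                  · rcases (by have f := C.p11_13B; omega : B1 ≤ 0 ∨ A1 ≤ 0 ∨ B3 ≤ 0 ∨ m11_1 + m13_1 < 2 * B1 ∨ m11_2 + m13_2 < 2 * B2 ∨ m11_3 + m13_3 < 2 * B3) with h | h | h | h | h | h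
                    · omega
                    · have g0 := C.o0
                      omega
                    · have g0 := C.b4
                      have g1 := C.o0
                      have g2 := C.o1
                      omega
                    · rcases (by have f := C.p12_33A; omega : A1 ≤ 0 ∨ B2 ≤ 0 ∨ A3 ≤ 0 ∨ m12_1 + m33_1 < 2 * A1 ∨ m12_2 + m33_2 < 2 * A2 ∨ m12_3 + m33_3 < 2 * A3) with h | h | h | h | h | h
                      · have g0 := C.o0
                        omega
                      · have g0 := C.o0
                        have g1 := C.o1
                        omega
                      · omega
                      · have g0 := C.f11_0
                        omega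
                      · have g0 := C.o1
                        have g1 := C.f11_0
                        have g2 := C.f33_1
                        omega
                      · have g0 := C.o1
                        have g1 := C.f12_6
                        omega
                    · have g0 := C.b4
                      have g1 := C.o2
                      have g2 := C.f33_4
                      omega
                    · have g0 := C.b3
                      have g1 := C.o1
                      have g2 := C.f11_0
                      have g3 := C.f11_1
                      have g4 := C.f11_2
                      have g5 := C.f33_7
                      omega
                  · omega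
                  · rcases (by have f := C.p11_13B; omega : B1 ≤ 0 ∨ A1 ≤ 0 ∨ B3 ≤ 0 ∨ m11_1 + m13_1 < 2 * B1 ∨ m11_2 + m13_2 < 2 * B2 ∨ m11_3 + m13_3 < 2 * B3) with h | h | h | h | h | h
                    · omega
                    · have g0 := C.o0
                      omega
                    · have g0 := C.a4
                      have g1 := C.o0
                      have g2 := C.o2
                      omega
                    · rcases (by have f := C.p11_33A; omega : B1 ≤ 0 ∨ A3 ≤ 0 ∨ m11_1 + m33_1 < 2 * A1 ∨ m11_2 + m33_2 < 2 * A2 ∨ m11_3 + m33_3 < 2 * A3) with h | h | h | h | h
                      · omega
                      · omega
                      · rcases (by have f := C.p12_33A; omega : A1 ≤ 0 ∨ B2 ≤ 0 ∨ A3 ≤ 0 ∨ m12_1 + m33_1 < 2 * A1 ∨ m12_2 + m33_2 < 2 * A2 ∨ m12_3 + m33_3 < 2 * A3) with h | h | h | h | h | h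
                        · have g0 := C.o0
                          omega
                        · have g0 := C.o0
                          have g1 := C.o1
                          omega
                        · omega
                        · have g0 := C.f11_0
                          omega
                        · have g0 := C.o1
                          have g1 := C.f11_0
                          have g2 := C.f11_1
                          omega
                        · have g0 := C.o1
                          have g1 := C.f12_6
                          omega
                      · have g0 := C.a4
                        have g1 := C.o1
                        omega
                      · have g0 := C.b3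
                        have g1 := C.o1
                        have g2 := C.f11_0
                        have g3 := C.f11_1
                        have g4 := C.f11_2
                        omega
                    · have g0 := C.o2
                      have g1 := C.f11_0
                      have g2 := C.f11_1
                      have g3 := C.f33_4
                      omega
                    · have g0 := C.b3
                      have g1 := C.o1
                      have g2 := C.f11_0
                      have g3 := C.f11_1
                      have g4 := C.f11_2
                      have g5 := C.f33_7
                      omega
        · rcases (by have f := C.f13_8; omega : m13_3 = m13_2 + n3 ∨ m13_3 = B3 - 1) with h | h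
          · rcases (by have f := C.f13_5; omega : m13_2 = m13_1 + n2 ∨ m13_2 = B3 - 1) with h | h
            · have g0 := C.b3
              have g1 := C.o0
              have g2 := C.f13_7
              omega
            · have g0 := C.b4
              have g1 := C.f13_7
              omega
          · rcases (by have f := C.f13_5; omega : m13_2 = m13_1 + n2 ∨ m13_2 = B3 - 1) with h | h
            · rcases (by have f := C.p12_33A; omega : A1 ≤ 0 ∨ B2 ≤ 0 ∨ A3 ≤ 0 ∨ m12_1 + m33_1 < 2 * A1 ∨ m12_2 + m33_2 < 2 * A2 ∨ m12_3 + m33_3 < 2 * A3) with h | h | h | h | h | h
              · have g0 := C.o0
                omega
              · have g0 := C.a2
                have g1 := C.o0
                have g2 := C.o1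
                omega
              · omega
              · rcases (by have f := C.p11_12B; omega : B1 ≤ 0 ∨ A1 ≤ 0 ∨ B2 ≤ 0 ∨ m11_1 + m12_1 < 2 * B1 ∨ m11_2 + m12_2 < 2 * B2 ∨ m11_3 + m12_3 < 2 * B3) with h | h | h | h | h | h
                · omega
                · have g0 := C.f11_0
                  omega
                · have g0 := C.a2
                  have g1 := C.o1
                  have g2 := C.f11_0
                  omega
                · have g0 := C.f11_0
                  omega
                · rcases (by have f := C.p11_13B; omega : B1 ≤ 0 ∨ A1 ≤ 0 ∨ B3 ≤ 0 ∨ m11_1 + m13_1 < 2 * B1 ∨ m11_2 + m13_2 < 2 * B2 ∨ m11_3 + m13_3 < 2 * B3) with h | h | h | h | h | h
                  · omega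
                  · have g0 := C.f11_0
                    omega
                  · have g0 := C.a2
                    have g1 := C.a4
                    have g2 := C.o2
                    have g3 := C.f11_0
                    omega
                  · have g0 := C.f11_0
                    omega
                  · have g0 := C.b3
                    have g1 := C.f11_0
                    have g2 := C.f11_1
                    omega
                  · have g0 := C.o2
                    have g1 := C.f33_7
                    omega
                · have g0 := C.o2
                  have g1 := C.f12_6
                  have g2 := C.f33_7
                  omega
              · rcases (by have f := C.f33_5; omega : m33_2 = m33_1 + n2 ∨ m33_2 = A3 - 1) with h | h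
                · have g0 := C.o1
                  have g1 := C.f11_0
                  have g2 := C.f11_1
                  omega
                · rcases (by have f := C.p11_12B; omega : B1 ≤ 0 ∨ A1 ≤ 0 ∨ B2 ≤ 0 ∨ m11_1 + m12_1 < 2 * B1 ∨ m11_2 + m12_2 < 2 * B2 ∨ m11_3 + m12_3 < 2 * B3) with h | h | h | h | h | h
                  · omega
                  · have g0 := C.o0
                    omega
                  · have g0 := C.o1
                    have g1 := C.f11_0
                    have g2 := C.f33_1
                    omega
                  · rcases (by have f := C.p12_13B; omega : A1 ≤ 0 ∨ B2 ≤ 0 ∨ B3 ≤ 0 ∨ m12_1 + m13_1 < 2 * B1 ∨ m12_2 + m13_2 < 2 * B2 ∨ m12_3 + m13_3 < 2 * B3) with h | h | h | h | h | h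
                    · have g0 := C.o0
                      omega
                    · have g0 := C.o1
                      have g1 := C.f11_0
                      have g2 := C.f33_1
                      omega
                    · have g0 := C.a3
                      have g1 := C.o1
                      have g2 := C.f11_0
                      have g3 := C.f13_4
                      have g4 := C.f33_1
                      omega
                    · have g0 := C.o0
                      omega
                    · have g0 := C.o0
                      have g1 := C.o1
                      have g2 := C.f11_0
                      have g3 := C.f11_1
                      omega
                    · rcases (by have f := C.p13_33A; omega : A1 ≤ 0 ∨ B3 ≤ 0 ∨ A3 ≤ 0 ∨ m13_1 + m33_1 < 2 * A1 ∨ m13_2 + m33_2 < 2 * A2 ∨ m13_3 + m33_3 < 2 * A3) with h | h | h | h | h | h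
                      · have g0 := C.o0
                        omega
                      · have g0 := C.o0
                        have g1 := C.o1
                        have g2 := C.f11_0
                        have g3 := C.f11_1
                        have g4 := C.f11_2
                        have g5 := C.f12_6
                        have g6 := C.f13_4
                        have g7 := C.f33_1
                        have g8 := C.f33_7
                        omega
                      · omega
                      · have g0 := C.f11_0
                        omega
                      · have g0 := C.o0
                        have g1 := C.o1
                        have g2 := C.f11_0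
                        have g3 := C.f11_1
                        have g4 := C.f11_2
                        have g5 := C.f12_6
                        have g6 := C.f13_4
                        have g7 := C.f33_7
                        omega
                      · have g0 := C.o0
                        have g1 := C.o1
                        have g2 := C.f11_0
                        have g3 := C.f11_1
                        have g4 := C.f11_2
                        have g5 := C.f12_6
                        have g6 := C.f13_4
                        omega
                  · have g0 := C.o1
                    omega
                  · have g0 := C.o0
                    have g1 := C.o1
                    have g2 := C.f11_0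
                    have g3 := C.f11_1
                    have g4 := C.f11_2
                    have g5 := C.f12_6
                    have g6 := C.f13_4
                    have g7 := C.f33_7
                    omega
              · rcases (by have f := C.f33_8; omega : m33_3 = m33_2 + n3 ∨ m33_3 = A3 - 1) with h | h
                · rcases (by have f := C.f33_5; omega : m33_2 = m33_1 + n2 ∨ m33_2 = A3 - 1) with h | h
                  · have g0 := C.o2
                    have g1 := C.f11_0
                    have g2 := C.f11_1
                    have g3 := C.f12_6
                    omega
                  · have g0 := C.o0
                    have g1 := C.o2
                    have g2 := C.f11_0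
                    have g3 := C.f11_1
                    have g4 := C.f12_6
                    have g5 := C.f13_4
                    omega
                · have g0 := C.o2
                  have g1 := C.f12_6
                  omega
            · rcases (by have f := C.f33_5; omega : m33_2 = m33_1 + n2 ∨ m33_2 = A3 - 1) with h | h
              · rcases (by have f := C.f33_2; omega : m33_1 = n1 ∨ m33_1 = A3 - 1) with h | h
                · have g0 := C.a1
                  have g1 := C.o2
                  have g2 := C.f13_0
                  have g3 := C.f13_3
                  have g4 := C.f33_4
                  omega
                · have g0 := C.a2
                  have g1 := C.a4
                  have g2 := C.o2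
                  have g3 := C.f13_0
                  have g4 := C.f13_3
                  have g5 := C.f33_4
                  omega
              · rcases (by have f := C.f33_8; omega : m33_3 = m33_2 + n3 ∨ m33_3 = A3 - 1) with h | h
                · have g0 := C.b4
                  have g1 := C.f33_7
                  omega
                · rcases (by have f := C.tmpp; omega : n1 < A1 + 1 ∨ A2 < A1 + 2 ∨ B1 < 1 ∨ B1 + n2 < B2 + 2) with h | h | h | h
                  · rcases (by have f := C.p11_12B; omega : B1 ≤ 0 ∨ A1 ≤ 0 ∨ B2 ≤ 0 ∨ m11_1 + m12_1 < 2 * B1 ∨ m11_2 + m12_2 < 2 * B2 ∨ m11_3 + m12_3 < 2 * B3) with h | h | h | h | h | h
                    · omega
                    · have g0 := C.f11_0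
                      have g1 := C.f33_0
                      omega
                    · have g0 := C.a2
                      have g1 := C.o1
                      have g2 := C.f11_0
                      have g3 := C.f33_0
                      omega
                    · have g0 := C.f11_0
                      have g1 := C.f33_0
                      omega
                    · rcases (by have f := C.p11_13B; omega : B1 ≤ 0 ∨ A1 ≤ 0 ∨ B3 ≤ 0 ∨ m11_1 + m13_1 < 2 * B1 ∨ m11_2 + m13_2 < 2 * B2 ∨ m11_3 + m13_3 < 2 * B3) with h | h | h | h | h | h
                      · omega
                      · have g0 := C.b1
                        omega
                      · have g0 := C.a2
                        have g1 := C.a4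
                        have g2 := C.o2
                        have g3 := C.f11_0
                        have g4 := C.f33_0
                        omega
                      · have g0 := C.f11_0
                        have g1 := C.f33_0
                        omega
                      · have g0 := C.b4
                        have g1 := C.o2
                        have g2 := C.f33_4
                        omega
                      · have g0 := C.o2
                        have g1 := C.f33_7
                        omega
                    · have g0 := C.o2
                      have g1 := C.f12_6
                      have g2 := C.f33_7
                      omega
                  · rcases (by have f := C.p11_13B; omega : B1 ≤ 0 ∨ A1 ≤ 0 ∨ B3 ≤ 0 ∨ m11_1 + m13_1 < 2 * B1 ∨ m11_2 + m13_2 < 2 * B2 ∨ m11_3 + m13_3 < 2 * B3) with h | h | h | h | h | h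
                    · omega
                    · have g0 := C.o0
                      omega
                    · have g0 := C.a2
                      have g1 := C.a4
                      have g2 := C.o0
                      have g3 := C.o2
                      omega
                    · rcases (by have f := C.p12_33A; omega : A1 ≤ 0 ∨ B2 ≤ 0 ∨ A3 ≤ 0 ∨ m12_1 + m33_1 < 2 * A1 ∨ m12_2 + m33_2 < 2 * A2 ∨ m12_3 + m33_3 < 2 * A3) with h | h | h | h | h | h
                      · have g0 := C.o0
                        omega
                      · have g0 := C.a2
                        have g1 := C.o0
                        have g2 := C.o1
                        omega
                      · omega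
                      · have g0 := C.f11_0
                        omega
                      · have g0 := C.o1
                        have g1 := C.f11_0
                        have g2 := C.f33_1
                        omega
                      · have g0 := C.o2
                        have g1 := C.f12_6
                        omega
                    · have g0 := C.b4
                      have g1 := C.o2
                      have g2 := C.f33_4
                      omega
                    · have g0 := C.o2
                      have g1 := C.f33_7
                      omega
                  · omega
                  · rcases (by have f := C.p12_33A; omega : A1 ≤ 0 ∨ B2 ≤ 0 ∨ A3 ≤ 0 ∨ m12_1 + m33_1 < 2 * A1 ∨ m12_2 + m33_2 < 2 * A2 ∨ m12_3 + m33_3 < 2 * A3) with h | h | h | h | h | h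
                    · have g0 := C.o0
                      omega
                    · have g0 := C.a2
                      have g1 := C.o0
                      have g2 := C.o1
                      omega
                    · omega
                    · rcases (by have f := C.p11_13B; omega : B1 ≤ 0 ∨ A1 ≤ 0 ∨ B3 ≤ 0 ∨ m11_1 + m13_1 < 2 * B1 ∨ m11_2 + m13_2 < 2 * B2 ∨ m11_3 + m13_3 < 2 * B3) with h | h | h | h | h | h
                      · omega
                      · have g0 := C.f11_0
                        omega
                      · have g0 := C.a2
                        have g1 := C.o1
                        have g2 := C.o2
                        have g3 := C.f11_0
                        have g4 := C.f11_1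
                        have g5 := C.f33_4
                        omega
                      · have g0 := C.f11_0
                        omega
                      · have g0 := C.o2
                        have g1 := C.f11_0
                        have g2 := C.f11_1
                        have g3 := C.f33_4
                        omega
                      · have g0 := C.o2
                        have g1 := C.f33_7
                        omega
                    · have g0 := C.o1
                      have g1 := C.f11_0
                      have g2 := C.f11_1
                      omega
                    · have g0 := C.o2
                      have g1 := C.f11_0
                      have g2 := C.f11_1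
                      have g3 := C.f11_2
                      have g4 := C.f12_6
                      omega
      · have g0 := C.a2
        have g1 := C.a4
        have g2 := C.o2
        have g3 := C.f13_0
        omega
  · have g0 := C.a2
    have g1 := C.o1
    have g2 := C.f12_0
    omega

end Pool.Agent.Helper25.TQ
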