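import Pool.Agent.Helper89.TQ.Ctx

set_option autoImplicit false
set_option linter.all false
set_option maxRecDepth 100000

namespace Pool.Agent.Helper25.TQ

open Pool.Agent.Helper89.TQ

theorem c2_11_22_33_k3 {n1 n2 n3 A1 A2 A3 B1 B2 B3 m11_1 m11_2 m11_3 m12_1 m12_2 m12_3 m13_1 m13_2 m13_3 m22_1 m22_2 m22_3 m33_1 m33_2 m33_3 : ℤ}
    (C : Ctx2 n1 n2 n3 A1 A2 A3 B1 B2 B3 m11_1 m11_2 m11_3 m12_1 m12_2 m12_3 m13_1 m13_2 m13_3 m22_1 m22_2 m22_3 m33_1 m33_2 m33_3)
    (e0 : 0 < B1)
    (e1 : 0 < A2)
    (e2 : 0 < A3)
    (s1 : 3 * A1 + 0 * B1 ≤ m11_1 + m22_1 + m33_1)
    (s2 : 3 * A2 + 0 * B2 ≤ m11_2 + m22_2 + m33_2)
    (s3 : 3 * A3 + 0 * B3 ≤ m11_3 + m22_3 + m33_3) : False := by
  rcases (by have f := C.f12_2; omega : m12_1 = A1 - 1 ∨ m12_1 = B2 - 1) with h | h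
  · rcases (by have f := C.f12_5; omega : m12_2 = m12_1 + n2 ∨ m12_2 = B2 - 1) with h | h
    · have g0 := C.b3
      have g1 := C.o0
      have g2 := C.f12_4
      omega
    · rcases (by have f := C.f13_2; omega : m13_1 = A1 - 1 ∨ m13_1 = B3 - 1) with h | h
      · rcases (by have f := C.f13_5; omega : m13_2 = m13_1 + n2 ∨ m13_2 = B3 - 1) with h | h
        · rcases (by have f := C.p11_33A; omega : B1 ≤ 0 ∨ A3 ≤ 0 ∨ m11_1 + m33_1 < 2 * A1 ∨ m11_2 + m33_2 < 2 * A2 ∨ m11_3 + m33_3 < 2 * A3) with h | h | h | h | h
          · omega
          · omega
          · rcases (by have f := C.f33_2; omega : m33_1 = n1 ∨ m33_1 = A3 - 1) with h | h
            · rcases (by have f := C.tzmp; omega : A1 + n2 < A2 + 1 ∨ A3 < A2 + 2 ∨ B2 < B1 + 1 ∨ B2 + n3 < B3 + 2) with h | h | h | h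
              · have g0 := C.b3
                have g1 := C.o1
                have g2 := C.f11_0
                have g3 := C.f22_0
                omega
              · rcases (by have f := C.p12_22A; omega : A1 ≤ 0 ∨ B2 ≤ 0 ∨ A2 ≤ 0 ∨ m12_1 + m22_1 < 2 * A1 ∨ m12_2 + m22_2 < 2 * A2 ∨ m12_3 + m22_3 < 2 * A3) with h | h | h | h | h | h
                · have g0 := C.f11_0
                  have g1 := C.f22_0
                  omega
                · have g0 := C.b2
                  omega
                · omega
                · omega
                · rcases (by have f := C.f33_8; omega : m33_3 = m33_2 + n3 ∨ m33_3 = A3 - 1) with h | h
                  · have g0 := C.b5
                    have g1 := C.f11_1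
                    have g2 := C.f13_4
                    have g3 := C.f22_0
                    have g4 := C.f33_7
                    omega
                  · rcases (by have f := C.p12_33A; omega : A1 ≤ 0 ∨ B2 ≤ 0 ∨ A3 ≤ 0 ∨ m12_1 + m33_1 < 2 * A1 ∨ m12_2 + m33_2 < 2 * A2 ∨ m12_3 + m33_3 < 2 * A3) with h | h | h | h | h | h
                    · have g0 := C.f11_0
                      have g1 := C.f22_0
                      omega
                    · have g0 := C.o1
                      have g1 := C.f11_0
                      have g2 := C.f22_0
                      have g3 := C.f22_1
                      omega
                    · omega
                    · have g0 := C.f22_0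
                      omega
                    · rcases (by have f := C.p13_22A; omega : A1 ≤ 0 ∨ B3 ≤ 0 ∨ A2 ≤ 0 ∨ m13_1 + m22_1 < 2 * A1 ∨ m13_2 + m22_2 < 2 * A2 ∨ m13_3 + m22_3 < 2 * A3) with h | h | h | h | h | h
                      · have g0 := C.f11_0
                        have g1 := C.f22_0
                        omega
                      · have g0 := C.o1
                        have g1 := C.f11_0
                        have g2 := C.f11_1
                        have g3 := C.f13_4
                        have g4 := C.f22_0
                        have g5 := C.f22_1
                        have g6 := C.f22_4
                        omega
                      · omega
                      · omega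
                      · have g0 := C.o1
                        have g1 := C.f11_1
                        have g2 := C.f22_0
                        omega
                      · rcases (by have f := C.f13_8; omega : m13_3 = m13_2 + n3 ∨ m13_3 = B3 - 1) with h | h
                        · have g0 := C.b5
                          have g1 := C.o1
                          have g2 := C.f11_1
                          have g3 := C.f13_4
                          have g4 := C.f22_0
                          have g5 := C.f22_4
                          have g6 := C.f22_6
                          omega
                        · have g0 := C.b5
                          have g1 := C.o1
                          have g2 := C.f11_1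
                          have g3 := C.f13_4
                          have g4 := C.f22_0
                          have g5 := C.f22_4
                          have g6 := C.f22_6
                          omega
                    · have g0 := C.b5
                      have g1 := C.f11_1
                      have g2 := C.f12_6
                      have g3 := C.f13_4
                      have g4 := C.f22_0
                      have g5 := C.f22_4
                      have g6 := C.f33_4
                      omega
                · have g0 := C.a5
                  have g1 := C.b5
                  have g2 := C.f11_1
                  have g3 := C.f12_6
                  have g4 := C.f13_4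
                  have g5 := C.f22_0
                  have g6 := C.f22_6
                  have g7 := C.f33_4
                  omega
              · have g0 := C.o1
                have g1 := C.f11_0
                have g2 := C.f22_0
                have g3 := C.f22_1
                omega
              · rcases (by have f := C.f22_5; omega : m22_2 = m22_1 + n2 ∨ m22_2 = A2 - 1) with h | h
                · have g0 := C.a3
                  have g1 := C.f22_4
                  omega
                · rcases (by have f := C.f13_8; omega : m13_3 = m13_2 + n3 ∨ m13_3 = B3 - 1) with h | h
                  · have g0 := C.b3
                    have g1 := C.b5
                    have g2 := C.f11_0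
                    have g3 := C.f13_7
                    have g4 := C.f22_0
                    omega
                  · rcases (by have f := C.p13_22A; omega : A1 ≤ 0 ∨ B3 ≤ 0 ∨ A2 ≤ 0 ∨ m13_1 + m22_1 < 2 * A1 ∨ m13_2 + m22_2 < 2 * A2 ∨ m13_3 + m22_3 < 2 * A3) with h | h | h | h | h | h
                    · have g0 := C.f11_0
                      have g1 := C.f22_0
                      omega
                    · have g0 := C.a3
                      have g1 := C.f11_0
                      have g2 := C.f13_4
                      have g3 := C.f22_0
                      have g4 := C.f22_1
                      omega
                    · omega
                    · omega
                    · have g0 := C.b3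
                      have g1 := C.o1
                      have g2 := C.f11_0
                      have g3 := C.f22_0
                      omega
                    · rcases (by have f := C.t23; omega : (A1 < A2 ∧ A3 < A2 + n3) ∨ (B1 < B2 ∧ B3 < B2 + n3)) with h | h
                      · have g0 := C.o2
                        have g1 := C.f22_6
                        omega
                      · rcases (by have f := C.p12_22A; omega : A1 ≤ 0 ∨ B2 ≤ 0 ∨ A2 ≤ 0 ∨ m12_1 + m22_1 < 2 * A1 ∨ m12_2 + m22_2 < 2 * A2 ∨ m12_3 + m22_3 < 2 * A3) with h | h | h | h | h | h
                        · have g0 := C.f11_0
                          have g1 := C.f22_0
                          omega
                        · omega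
                        · omega
                        · omega
                        · have g0 := C.o2
                          have g1 := C.f22_6
                          omega
                        · have g0 := C.a5
                          have g1 := C.o2
                          have g2 := C.f12_6
                          have g3 := C.f22_6
                          omega
            · rcases (by have f := C.f22_5; omega : m22_2 = m22_1 + n2 ∨ m22_2 = A2 - 1) with h | h
              · have g0 := C.f11_1
                have g1 := C.f22_1
                have g2 := C.f22_4
                have g3 := C.f33_4
                omega
              · rcases (by have f := C.p13_22A; omega : A1 ≤ 0 ∨ B3 ≤ 0 ∨ A2 ≤ 0 ∨ m13_1 + m22_1 < 2 * A1 ∨ m13_2 + m22_2 < 2 * A2 ∨ m13_3 + m22_3 < 2 * A3) with h | h | h | h | h | h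
                · have g0 := C.a4
                  have g1 := C.f11_0
                  have g2 := C.f22_1
                  omega
                · have g0 := C.a4
                  have g1 := C.f11_0
                  have g2 := C.f11_1
                  have g3 := C.f13_4
                  have g4 := C.f22_1
                  have g5 := C.f22_4
                  have g6 := C.f33_4
                  omega
                · omega
                · omega
                · have g0 := C.f11_1
                  have g1 := C.f22_1
                  have g2 := C.f33_4
                  omega
                · rcases (by have f := C.f13_8; omega : m13_3 = m13_2 + n3 ∨ m13_3 = B3 - 1) with h | h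
                  · have g0 := C.b3
                    have g1 := C.b5
                    have g2 := C.f11_0
                    have g3 := C.f11_1
                    have g4 := C.f13_4
                    have g5 := C.f22_1
                    have g6 := C.f22_6
                    have g7 := C.f33_4
                    omega
                  · have g0 := C.b3
                    have g1 := C.b5
                    have g2 := C.o1
                    have g3 := C.f11_0
                    have g4 := C.f13_4
                    have g5 := C.f22_1
                    have g6 := C.f22_6
                    omega
          · have g0 := C.f22_4
            omega
          · rcases (by have f := C.f13_8; omega : m13_3 = m13_2 + n3 ∨ m13_3 = B3 - 1) with h | h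
            · have g0 := C.b3
              have g1 := C.b5
              have g2 := C.o0
              have g3 := C.f13_7
              omega
            · rcases (by have f := C.f33_8; omega : m33_3 = m33_2 + n3 ∨ m33_3 = A3 - 1) with h | h
              · have g0 := C.f11_2
                have g1 := C.f22_4
                have g2 := C.f22_6
                omega
              · have g0 := C.b3
                have g1 := C.o1
                have g2 := C.f11_0
                have g3 := C.f11_1
                have g4 := C.f11_2
                have g5 := C.f22_4
                have g6 := C.f22_6
                omega
        · rcases (by have f := C.f33_8; omega : m33_3 = m33_2 + n3 ∨ m33_3 = A3 - 1) with h | h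
          · rcases (by have f := C.p11_33A; omega : B1 ≤ 0 ∨ A3 ≤ 0 ∨ m11_1 + m33_1 < 2 * A1 ∨ m11_2 + m33_2 < 2 * A2 ∨ m11_3 + m33_3 < 2 * A3) with h | h | h | h | h
            · omega
            · omega
            · rcases (by have f := C.p11_22A; omega : B1 ≤ 0 ∨ A2 ≤ 0 ∨ m11_1 + m22_1 < 2 * A1 ∨ m11_2 + m22_2 < 2 * A2 ∨ m11_3 + m22_3 < 2 * A3) with h | h | h | h | h
              · omega
              · omega
              · rcases (by have f := C.t23; omega : (A1 < A2 ∧ A3 < A2 + n3) ∨ (B1 < B2 ∧ B3 < B2 + n3)) with h | h
                · rcases (by have f := C.f33_5; omega : m33_2 = m33_1 + n2 ∨ m33_2 = A3 - 1) with h | h
                  · have g0 := C.o0
                    have g1 := C.f11_0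
                    have g2 := C.f11_1
                    have g3 := C.f22_4
                    have g4 := C.f33_7
                    omega
                  · have g0 := C.a4
                    have g1 := C.f33_7
                    omega
                · rcases (by have f := C.f33_5; omega : m33_2 = m33_1 + n2 ∨ m33_2 = A3 - 1) with h | h
                  · have g0 := C.a5
                    have g1 := C.o0
                    have g2 := C.f11_0
                    have g3 := C.f11_1
                    have g4 := C.f22_4
                    have g5 := C.f33_7
                    omega
                  · have g0 := C.b4
                    have g1 := C.f33_7
                    omega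
              · have g0 := C.a5
                have g1 := C.f33_7
                omega
              · have g0 := C.a5
                have g1 := C.f11_2
                have g2 := C.f22_6
                have g3 := C.f33_7
                omega
            · have g0 := C.f22_4
              omega
            · have g0 := C.a5
              have g1 := C.f11_2
              have g2 := C.f22_4
              omega
          · rcases (by have f := C.f33_5; omega : m33_2 = m33_1 + n2 ∨ m33_2 = A3 - 1) with h | h
            · rcases (by have f := C.f33_2; omega : m33_1 = n1 ∨ m33_1 = A3 - 1) with h | h
              · have g0 := C.o0
                have g1 := C.o2
                have g2 := C.f11_0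
                have g3 := C.f13_0
                have g4 := C.f13_3
                have g5 := C.f22_0
                have g6 := C.f33_4
                omega
              · have g0 := C.o0
                have g1 := C.o2
                have g2 := C.f11_0
                have g3 := C.f11_1
                have g4 := C.f13_0
                have g5 := C.f13_3
                have g6 := C.f22_1
                have g7 := C.f22_4
                have g8 := C.f33_4
                omega
            · rcases (by have f := C.t23; omega : (A1 < A2 ∧ A3 < A2 + n3) ∨ (B1 < B2 ∧ B3 < B2 + n3)) with h | h
              · rcases (by have f := C.p11_33A; omega : B1 ≤ 0 ∨ A3 ≤ 0 ∨ m11_1 + m33_1 < 2 * A1 ∨ m11_2 + m33_2 < 2 * A2 ∨ m11_3 + m33_3 < 2 * A3) with h | h | h | h | h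
                · omega
                · omega
                · rcases (by have f := C.p12_33A; omega : A1 ≤ 0 ∨ B2 ≤ 0 ∨ A3 ≤ 0 ∨ m12_1 + m33_1 < 2 * A1 ∨ m12_2 + m33_2 < 2 * A2 ∨ m12_3 + m33_3 < 2 * A3) with h | h | h | h | h | h
                  · have g0 := C.o0
                    omega
                  · have g0 := C.o0
                    have g1 := C.o1
                    have g2 := C.f22_1
                    omega
                  · omega
                  · rcases (by have f := C.f13_8; omega : m13_3 = m13_2 + n3 ∨ m13_3 = B3 - 1) with h | h
                    · have g0 := C.a4
                      have g1 := C.f13_7
                      omega
                    · rcases (by have f := C.f22_5; omega : m22_2 = m22_1 + n2 ∨ m22_2 = A2 - 1) with h | h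
                      · have g0 := C.a3
                        have g1 := C.o0
                        have g2 := C.f11_0
                        have g3 := C.f22_4
                        omega
                      · rcases (by have f := C.f33_2; omega : m33_1 = n1 ∨ m33_1 = A3 - 1) with h | h
                        · have g0 := C.o0
                          have g1 := C.f11_0
                          have g2 := C.f22_0
                          omega
                        · have g0 := C.a4
                          have g1 := C.o0
                          have g2 := C.f11_0
                          have g3 := C.f22_1
                          omega
                  · rcases (by have f := C.p11_22A; omega : B1 ≤ 0 ∨ A2 ≤ 0 ∨ m11_1 + m22_1 < 2 * A1 ∨ m11_2 + m22_2 < 2 * A2 ∨ m11_3 + m22_3 < 2 * A3) with h | h | h | h | h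
                    · omega
                    · omega
                    · rcases (by have f := C.tmpp; omega : n1 < A1 + 1 ∨ A2 < A1 + 2 ∨ B1 < 1 ∨ B1 + n2 < B2 + 2) with h | h | h | h
                      · have g0 := C.o0
                        have g1 := C.f11_0
                        have g2 := C.f22_0
                        have g3 := C.f33_0
                        omega
                      · have g0 := C.o0
                        have g1 := C.o1
                        have g2 := C.f11_0
                        have g3 := C.f22_1
                        have g4 := C.f33_1
                        omega
                      · omega
                      · have g0 := C.f11_0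
                        have g1 := C.f11_1
                        have g2 := C.f22_4
                        omega
                    · have g0 := C.o1
                      omega
                    · have g0 := C.o1
                      have g1 := C.f11_2
                      have g2 := C.f22_6
                      omega
                  · have g0 := C.o1
                    have g1 := C.f12_6
                    omega
                · have g0 := C.f22_4
                  omega
                · have g0 := C.b3
                  have g1 := C.o1
                  have g2 := C.f11_0
                  have g3 := C.f11_1
                  have g4 := C.f11_2
                  omega
              · rcases (by have f := C.f13_8; omega : m13_3 = m13_2 + n3 ∨ m13_3 = B3 - 1) with h | h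
                · have g0 := C.b4
                  have g1 := C.f13_7
                  omega
                · rcases (by have f := C.f22_5; omega : m22_2 = m22_1 + n2 ∨ m22_2 = A2 - 1) with h | h
                  · rcases (by have f := C.f22_2; omega : m22_1 = n1 ∨ m22_1 = A2 - 1) with h | h
                    · have g0 := C.a3
                      have g1 := C.o0
                      have g2 := C.f11_0
                      have g3 := C.f22_4
                      have g4 := C.f33_0
                      omega
                    · have g0 := C.a2
                      have g1 := C.b3
                      have g2 := C.o0
                      have g3 := C.o1
                      have g4 := C.f22_4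
                      omega
                  · rcases (by have f := C.p11_33A; omega : B1 ≤ 0 ∨ A3 ≤ 0 ∨ m11_1 + m33_1 < 2 * A1 ∨ m11_2 + m33_2 < 2 * A2 ∨ m11_3 + m33_3 < 2 * A3) with h | h | h | h | h
                    · omega
                    · omega
                    · rcases (by have f := C.p12_33A; omega : A1 ≤ 0 ∨ B2 ≤ 0 ∨ A3 ≤ 0 ∨ m12_1 + m33_1 < 2 * A1 ∨ m12_2 + m33_2 < 2 * A2 ∨ m12_3 + m33_3 < 2 * A3) with h | h | h | h | h | h
                      · have g0 := C.o0
                        omega
                      · omega
                      · omega
                      · rcases (by have f := C.f33_2; omega : m33_1 = n1 ∨ m33_1 = A3 - 1) with h | h
                        · have g0 := C.o0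
                          have g1 := C.f11_0
                          have g2 := C.f22_0
                          omega
                        · have g0 := C.a4
                          have g1 := C.o0
                          have g2 := C.f11_0
                          have g3 := C.f22_1
                          omega
                      · rcases (by have f := C.p11_22A; omega : B1 ≤ 0 ∨ A2 ≤ 0 ∨ m11_1 + m22_1 < 2 * A1 ∨ m11_2 + m22_2 < 2 * A2 ∨ m11_3 + m22_3 < 2 * A3) with h | h | h | h | h
                        · omega
                        · omega
                        · rcases (by have f := C.tmpp; omega : n1 < A1 + 1 ∨ A2 < A1 + 2 ∨ B1 < 1 ∨ B1 + n2 < B2 + 2) with h | h | h | h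
                          · have g0 := C.o0
                            have g1 := C.f11_0
                            have g2 := C.f22_0
                            have g3 := C.f33_0
                            omega
                          · have g0 := C.o0
                            have g1 := C.o1
                            have g2 := C.f11_0
                            have g3 := C.f22_1
                            have g4 := C.f33_1
                            omega
                          · omega
                          · have g0 := C.f11_0
                            have g1 := C.f11_1
                            have g2 := C.f22_4
                            omega
                        · have g0 := C.o1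
                          omega
                        · have g0 := C.a4
                          have g1 := C.o2
                          have g2 := C.f11_2
                          have g3 := C.f22_6
                          omega
                      · have g0 := C.o2
                        have g1 := C.f12_6
                        omega
                    · have g0 := C.f22_4
                      omega
                    · have g0 := C.b3
                      have g1 := C.o2
                      have g2 := C.f11_0
                      have g3 := C.f11_1
                      have g4 := C.f11_2
                      omega
      · have g0 := C.a4
        have g1 := C.o0
        have g2 := C.o2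
        have g3 := C.f11_0
        have g4 := C.f13_0
        have g5 := C.f22_1
        have g6 := C.f33_1
        omega
  · have g0 := C.a2
    have g1 := C.o1
    have g2 := C.f12_0
    omega

end Pool.Agent.Helper25.TQ
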