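import Pool.Agent.Helper89.TQ.Ctx

set_option autoImplicit false
set_option linter.all false
set_option maxRecDepth 100000

namespace Pool.Agent.Helper25.TQ

open Pool.Agent.Helper89.TQ

theorem c3_22_22_33_k0 {n1 n2 n3 A1 A2 A3 B1 B2 B3 m11_1 m11_2 m11_3 m22_1 m22_2 m22_3 m23_1 m23_2 m23_3 m33_1 m33_2 m33_3 : ℤ}
    (C : Ctx3 n1 n2 n3 A1 A2 A3 B1 B2 B3 m11_1 m11_2 m11_3 m22_1 m22_2 m22_3 m23_1 m23_2 m23_3 m33_1 m33_2 m33_3)
    (e0 : 0 < B2)
    (e1 : 0 < A3)
    (s1 : 0 * A1 + 3 * B1 ≤ m22_1 + m22_1 + m33_1)
    (s2 : 0 * A2 + 3 * B2 ≤ m22_2 + m22_2 + m33_2)
    (s3 : 0 * A3 + 3 * B3 ≤ m22_3 + m22_3 + m33_3) : False := by
  rcases (by have f := C.f23_10; omega : m23_3 = m23_2 + n3 ∨ m23_3 = B3 - 1) with h | h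
  · rcases (by have f := C.t12; omega : (0 < A1 ∧ A2 < A1 + n2) ∨ (0 < B1 ∧ B2 < B1 + n2)) with h | h
    · rcases (by have f := C.f23_7; omega : m23_2 = m23_1 + n2 ∨ m23_2 = A2 - 1 ∨ m23_2 = B3 - 1) with h | h | h
      · rcases (by have f := C.f23_3; omega : m23_1 = n1 ∨ m23_1 = A2 - 1 ∨ m23_1 = B3 - 1) with h | h | h
        · have g0 := C.a1
          have g1 := C.o1
          have g2 := C.o2
          have g3 := C.f22_4
          have g4 := C.f22_6
          have g5 := C.f23_9
          have g6 := C.f33_7
          omega
        · have g0 := C.a2
          have g1 := C.o1
          have g2 := C.o2
          have g3 := C.f22_4
          have g4 := C.f22_6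
          have g5 := C.f23_9
          have g6 := C.f33_7
          omega
        · have g0 := C.a4
          have g1 := C.o0
          have g2 := C.o1
          have g3 := C.o2
          have g4 := C.f22_1
          have g5 := C.f22_4
          have g6 := C.f22_6
          have g7 := C.f23_9
          have g8 := C.f33_1
          have g9 := C.f33_7
          omega
      · have g0 := C.o1
        have g1 := C.o2
        have g2 := C.f22_4
        have g3 := C.f22_6
        have g4 := C.f23_9
        have g5 := C.f33_7
        omega
      · have g0 := C.a4
        have g1 := C.o1
        have g2 := C.o2
        have g3 := C.f22_4
        have g4 := C.f22_6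
        have g5 := C.f23_9
        have g6 := C.f33_7
        omega
    · rcases (by have f := C.f23_3; omega : m23_1 = n1 ∨ m23_1 = A2 - 1 ∨ m23_1 = B3 - 1) with h | h | h
      · rcases (by have f := C.f23_7; omega : m23_2 = m23_1 + n2 ∨ m23_2 = A2 - 1 ∨ m23_2 = B3 - 1) with h | h | h
        · have g0 := C.o2
          have g1 := C.f22_4
          have g2 := C.f22_6
          have g3 := C.f23_9
          have g4 := C.f33_0
          have g5 := C.f33_3
          have g6 := C.f33_7
          omega
        · have g0 := C.o1
          have g1 := C.o2
          have g2 := C.f22_4
          have g3 := C.f22_6
          have g4 := C.f23_9
          have g5 := C.f33_7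
          omega
        · have g0 := C.o2
          have g1 := C.f22_4
          have g2 := C.f22_6
          have g3 := C.f23_9
          have g4 := C.f33_4
          have g5 := C.f33_7
          omega
      · rcases (by have f := C.f23_7; omega : m23_2 = m23_1 + n2 ∨ m23_2 = A2 - 1 ∨ m23_2 = B3 - 1) with h | h | h
        · have g0 := C.a3
          have g1 := C.b2
          have g2 := C.o0
          have g3 := C.o1
          have g4 := C.o2
          have g5 := C.f22_4
          have g6 := C.f22_6
          have g7 := C.f23_9
          have g8 := C.f33_7
          omega
        · have g0 := C.o1
          have g1 := C.o2
          have g2 := C.f22_4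
          have g3 := C.f22_6
          have g4 := C.f23_9
          have g5 := C.f33_7
          omega
        · have g0 := C.o2
          have g1 := C.f22_4
          have g2 := C.f22_6
          have g3 := C.f23_9
          have g4 := C.f33_4
          have g5 := C.f33_7
          omega
      · have g0 := C.a4
        have g1 := C.o2
        have g2 := C.f23_1
        omega
  · rcases (by have f := C.f23_7; omega : m23_2 = m23_1 + n2 ∨ m23_2 = A2 - 1 ∨ m23_2 = B3 - 1) with h | h | h
    · rcases (by have f := C.f23_3; omega : m23_1 = n1 ∨ m23_1 = A2 - 1 ∨ m23_1 = B3 - 1) with h | h | h
      · have g0 := C.a1
        have g1 := C.a3
        have g2 := C.f23_5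
        omega
      · have g0 := C.a3
        have g1 := C.b2
        have g2 := C.o0
        have g3 := C.o1
        have g4 := C.f23_5
        omega
      · have g0 := C.a3
        have g1 := C.a4
        have g2 := C.b2
        have g3 := C.o0
        have g4 := C.o1
        have g5 := C.o2
        have g6 := C.f23_5
        omega
    · rcases (by have f := C.f33_8; omega : m33_3 = m33_2 + n3 ∨ m33_3 = A3 - 1) with h | h
      · have g0 := C.o2
        have g1 := C.f22_4
        have g2 := C.f22_6
        have g3 := C.f33_7
        omega
      · rcases (by have f := C.t12; omega : (0 < A1 ∧ A2 < A1 + n2) ∨ (0 < B1 ∧ B2 < B1 + n2)) with h | h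
        · rcases (by have f := C.p11_33A; omega : B1 ≤ 0 ∨ A3 ≤ 0 ∨ m11_1 + m33_1 < 2 * A1 ∨ m11_2 + m33_2 < 2 * A2 ∨ m11_3 + m33_3 < 2 * A3) with h | h | h | h | h
          · have g0 := C.o0
            omega
          · omega
          · rcases (by have f := C.tzmp; omega : A1 + n2 < A2 + 1 ∨ A3 < A2 + 2 ∨ B2 < B1 + 1 ∨ B2 + n3 < B3 + 2) with h | h | h | h
            · omega
            · rcases (by have f := C.p22_23B; omega : B2 ≤ 0 ∨ A2 ≤ 0 ∨ B3 ≤ 0 ∨ m22_1 + m23_1 < 2 * B1 ∨ m22_2 + m23_2 < 2 * B2 ∨ m22_3 + m23_3 < 2 * B3) with h | h | h | h | h | h
              · omega
              · have g0 := C.o0
                have g1 := C.f11_0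
                have g2 := C.f22_1
                have g3 := C.f22_4
                have g4 := C.f33_4
                omega
              · have g0 := C.o0
                have g1 := C.o2
                have g2 := C.f11_0
                have g3 := C.f22_1
                have g4 := C.f22_4
                have g5 := C.f33_4
                omega
              · rcases (by have f := C.f23_3; omega : m23_1 = n1 ∨ m23_1 = A2 - 1 ∨ m23_1 = B3 - 1) with h | h | h
                · have g0 := C.a1
                  have g1 := C.o0
                  have g2 := C.f33_0
                  omega
                · have g0 := C.b2
                  have g1 := C.f22_4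
                  have g2 := C.f33_1
                  have g3 := C.f33_4
                  omega
                · have g0 := C.a4
                  have g1 := C.o2
                  have g2 := C.f23_1
                  omega
              · have g0 := C.f22_4
                have g1 := C.f33_4
                omega
              · have g0 := C.o2
                have g1 := C.f33_7
                omega
            · have g0 := C.o0
              have g1 := C.f11_0
              have g2 := C.f22_1
              omega
            · have g0 := C.o2
              have g1 := C.f22_4
              have g2 := C.f22_6
              have g3 := C.f33_7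
              omega
          · rcases (by have f := C.f23_3; omega : m23_1 = n1 ∨ m23_1 = A2 - 1 ∨ m23_1 = B3 - 1) with h | h | h
            · rcases (by have f := C.p11_23B; omega : B1 ≤ 0 ∨ A2 ≤ 0 ∨ B3 ≤ 0 ∨ m11_1 + m23_1 < 2 * B1 ∨ m11_2 + m23_2 < 2 * B2 ∨ m11_3 + m23_3 < 2 * B3) with h | h | h | h | h | h
              · have g0 := C.o0
                omega
              · have g0 := C.a2
                omega
              · have g0 := C.b2
                have g1 := C.o0
                have g2 := C.o2
                have g3 := C.f22_4
                have g4 := C.f33_4
                omega
              · rcases (by have f := C.p22_23B; omega : B2 ≤ 0 ∨ A2 ≤ 0 ∨ B3 ≤ 0 ∨ m22_1 + m23_1 < 2 * B1 ∨ m22_2 + m23_2 < 2 * B2 ∨ m22_3 + m23_3 < 2 * B3) with h | h | h | h | h | h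
                · omega
                · have g0 := C.a2
                  omega
                · have g0 := C.b2
                  have g1 := C.o0
                  have g2 := C.o2
                  have g3 := C.f22_4
                  have g4 := C.f33_4
                  omega
                · have g0 := C.a1
                  have g1 := C.o0
                  have g2 := C.f33_0
                  omega
                · have g0 := C.o0
                  have g1 := C.f11_0
                  have g2 := C.f11_1
                  have g3 := C.f22_4
                  omega
                · have g0 := C.o2
                  have g1 := C.f33_7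
                  omega
              · have g0 := C.o0
                have g1 := C.f11_0
                have g2 := C.f11_1
                have g3 := C.f22_4
                omega
              · have g0 := C.o0
                have g1 := C.o2
                have g2 := C.f11_0
                have g3 := C.f11_1
                have g4 := C.f11_2
                have g5 := C.f22_4
                have g6 := C.f22_6
                have g7 := C.f33_7
                omega
            · rcases (by have f := C.p11_23B; omega : B1 ≤ 0 ∨ A2 ≤ 0 ∨ B3 ≤ 0 ∨ m11_1 + m23_1 < 2 * B1 ∨ m11_2 + m23_2 < 2 * B2 ∨ m11_3 + m23_3 < 2 * B3) with h | h | h | h | h | h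
              · have g0 := C.o0
                omega
              · have g0 := C.b2
                have g1 := C.o0
                have g2 := C.f11_0
                have g3 := C.f11_1
                have g4 := C.f22_4
                omega
              · have g0 := C.b2
                have g1 := C.o0
                have g2 := C.o2
                have g3 := C.f22_4
                have g4 := C.f33_4
                omega
              · have g0 := C.b2
                have g1 := C.o0
                have g2 := C.f11_0
                have g3 := C.f11_1
                have g4 := C.f22_4
                omega
              · have g0 := C.o0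
                have g1 := C.f11_0
                have g2 := C.f11_1
                have g3 := C.f22_4
                omega
              · have g0 := C.o0
                have g1 := C.o2
                have g2 := C.f11_0
                have g3 := C.f11_1
                have g4 := C.f11_2
                have g5 := C.f22_4
                have g6 := C.f22_6
                have g7 := C.f33_7
                omega
            · have g0 := C.a4
              have g1 := C.o2
              have g2 := C.f23_1
              omega
          · have g0 := C.b3
            have g1 := C.o2
            have g2 := C.f11_0
            have g3 := C.f11_1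
            have g4 := C.f11_2
            have g5 := C.f22_4
            have g6 := C.f22_6
            omega
        · rcases (by have f := C.p11_33A; omega : B1 ≤ 0 ∨ A3 ≤ 0 ∨ m11_1 + m33_1 < 2 * A1 ∨ m11_2 + m33_2 < 2 * A2 ∨ m11_3 + m33_3 < 2 * A3) with h | h | h | h | h
          · omega
          · omega
          · rcases (by have f := C.tzmp; omega : A1 + n2 < A2 + 1 ∨ A3 < A2 + 2 ∨ B2 < B1 + 1 ∨ B2 + n3 < B3 + 2) with h | h | h | h
            · rcases (by have f := C.p22_23B; omega : B2 ≤ 0 ∨ A2 ≤ 0 ∨ B3 ≤ 0 ∨ m22_1 + m23_1 < 2 * B1 ∨ m22_2 + m23_2 < 2 * B2 ∨ m22_3 + m23_3 < 2 * B3) with h | h | h | h | h | h
              · omega
              · have g0 := C.o0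
                have g1 := C.f11_0
                have g2 := C.f22_1
                have g3 := C.f22_4
                have g4 := C.f33_3
                omega
              · have g0 := C.o0
                have g1 := C.o2
                have g2 := C.f11_0
                have g3 := C.f22_1
                have g4 := C.f22_4
                have g5 := C.f33_4
                omega
              · rcases (by have f := C.f23_3; omega : m23_1 = n1 ∨ m23_1 = A2 - 1 ∨ m23_1 = B3 - 1) with h | h | h
                · have g0 := C.a1
                  have g1 := C.o0
                  have g2 := C.f33_0
                  omega
                · have g0 := C.o0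
                  have g1 := C.f11_0
                  have g2 := C.f22_1
                  omega
                · have g0 := C.a4
                  have g1 := C.o2
                  have g2 := C.f23_1
                  omega
              · have g0 := C.o0
                have g1 := C.f11_0
                have g2 := C.f22_4
                have g3 := C.f33_3
                omega
              · have g0 := C.o2
                have g1 := C.f33_7
                omega
            · rcases (by have f := C.f23_3; omega : m23_1 = n1 ∨ m23_1 = A2 - 1 ∨ m23_1 = B3 - 1) with h | h | h
              · rcases (by have f := C.f33_2; omega : m33_1 = n1 ∨ m33_1 = A3 - 1) with h | h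
                · rcases (by have f := C.p22_23B; omega : B2 ≤ 0 ∨ A2 ≤ 0 ∨ B3 ≤ 0 ∨ m22_1 + m23_1 < 2 * B1 ∨ m22_2 + m23_2 < 2 * B2 ∨ m22_3 + m23_3 < 2 * B3) with h | h | h | h | h | h
                  · omega
                  · have g0 := C.a2
                    have g1 := C.o0
                    omega
                  · have g0 := C.b2
                    have g1 := C.o2
                    have g2 := C.f22_4
                    have g3 := C.f33_4
                    omega
                  · have g0 := C.a1
                    have g1 := C.o0
                    have g2 := C.f33_0
                    omega
                  · have g0 := C.f22_4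
                    have g1 := C.f33_4
                    omega
                  · have g0 := C.o2
                    have g1 := C.f33_7
                    omega
                · have g0 := C.o0
                  have g1 := C.f11_0
                  have g2 := C.f22_1
                  have g3 := C.f22_4
                  have g4 := C.f33_4
                  omega
              · rcases (by have f := C.f33_2; omega : m33_1 = n1 ∨ m33_1 = A3 - 1) with h | h
                · have g0 := C.o0
                  have g1 := C.f11_0
                  have g2 := C.f22_1
                  have g3 := C.f22_4
                  have g4 := C.f23_0
                  have g5 := C.f33_4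
                  omega
                · have g0 := C.o0
                  have g1 := C.f11_0
                  have g2 := C.f22_1
                  have g3 := C.f22_4
                  have g4 := C.f33_4
                  omega
              · have g0 := C.a4
                have g1 := C.o2
                have g2 := C.f23_1
                omega
            · have g0 := C.o0
              have g1 := C.f11_0
              have g2 := C.f22_1
              omega
            · have g0 := C.o2
              have g1 := C.f22_4
              have g2 := C.f22_6
              have g3 := C.f33_7
              omega
          · rcases (by have f := C.p11_23B; omega : B1 ≤ 0 ∨ A2 ≤ 0 ∨ B3 ≤ 0 ∨ m11_1 + m23_1 < 2 * B1 ∨ m11_2 + m23_2 < 2 * B2 ∨ m11_3 + m23_3 < 2 * B3) with h | h | h | h | h | h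
            · omega
            · have g0 := C.a2
              have g1 := C.o0
              omega
            · have g0 := C.a3
              have g1 := C.a4
              have g2 := C.o0
              have g3 := C.o2
              have g4 := C.f11_0
              have g5 := C.f11_1
              have g6 := C.f22_1
              have g7 := C.f22_4
              have g8 := C.f33_1
              omega
            · rcases (by have f := C.f23_3; omega : m23_1 = n1 ∨ m23_1 = A2 - 1 ∨ m23_1 = B3 - 1) with h | h | h
              · rcases (by have f := C.p22_23B; omega : B2 ≤ 0 ∨ A2 ≤ 0 ∨ B3 ≤ 0 ∨ m22_1 + m23_1 < 2 * B1 ∨ m22_2 + m23_2 < 2 * B2 ∨ m22_3 + m23_3 < 2 * B3) with h | h | h | h | h | h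
                · omega
                · have g0 := C.a2
                  have g1 := C.o0
                  omega
                · have g0 := C.b2
                  have g1 := C.o2
                  have g2 := C.f22_4
                  have g3 := C.f33_4
                  omega
                · have g0 := C.a1
                  have g1 := C.o0
                  have g2 := C.f33_0
                  omega
                · have g0 := C.a3
                  have g1 := C.o0
                  have g2 := C.f11_0
                  have g3 := C.f11_1
                  have g4 := C.f22_4
                  omega
                · have g0 := C.o2
                  have g1 := C.f33_7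
                  omega
              · have g0 := C.a3
                have g1 := C.b2
                have g2 := C.o0
                have g3 := C.f11_0
                have g4 := C.f11_1
                have g5 := C.f22_4
                omega
              · have g0 := C.b2
                have g1 := C.o2
                have g2 := C.f11_0
                have g3 := C.f22_4
                have g4 := C.f33_4
                omega
            · have g0 := C.a3
              have g1 := C.o0
              have g2 := C.f11_0
              have g3 := C.f11_1
              have g4 := C.f22_4
              omega
            · have g0 := C.a3
              have g1 := C.o0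
              have g2 := C.o2
              have g3 := C.f11_0
              have g4 := C.f11_1
              have g5 := C.f11_2
              have g6 := C.f22_4
              have g7 := C.f22_6
              have g8 := C.f33_7
              omega
          · have g0 := C.o2
            have g1 := C.f11_0
            have g2 := C.f11_1
            have g3 := C.f11_2
            have g4 := C.f22_4
            have g5 := C.f22_6
            omega
    · have g0 := C.a4
      have g1 := C.o2
      have g2 := C.f23_5
      omega

end Pool.Agent.Helper25.TQ
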